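import Pool.Agent.H38.LR.T3997.Q120.MG.Stm
import Pool.Agent.H38.LR.S8.H154R3.Task469B
import Pool.Agent.H38.LR.S8.Cov.PNT

/-!
# Numbers without small prime factors: basic facts
-/

set_option autoImplicit false

namespace Pool.Agent.Q120.MG

open Finset Filter Topology

open Classical in
/-- The indicator of the numbers `n ≥ 1` without prime factors below `z`. -/
noncomputable def cf (z n : ℕ) : ℝ := if 0 < n ∧ ∀ p : ℕ, p.Prime → p < z → ¬ p ∣ n then 1 else 0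

/-- The counting function. -/
noncomputable def Fr (z : ℕ) (t : ℝ) : ℝ := ∑ k ∈ Icc 0 ⌊t⌋₊, cf z k

theorem cf_zero (z : ℕ) : cf z 0 = 0 := by
  unfold cf
  rw [if_neg (fun h => lt_irrefl _ h.1)]

theorem cf_nonneg (z n : ℕ) : 0 ≤ cf z n := by
  unfold cf
  split_ifs <;> norm_num

theorem cf_le (z n : ℕ) : cf z n ≤ 1 := by
  unfold cf
  split_ifs <;> norm_num

theorem cf_one (z : ℕ) : cf z 1 = 1 := by
  unfold cf
  rw [if_pos]
  exact ⟨one_pos, fun p hp _ h => hp.one_lt.ne' (Nat.dvd_one.1 h)⟩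

theorem cf_small {z n : ℕ} (h1 : 1 < n) (h2 : n < z) : cf z n = 0 := by
  unfold cf
  rw [if_neg]
  rintro ⟨_, h⟩
  have h3 := Nat.minFac_prime (n := n) (by omega)
  exact h n.minFac h3 (lt_of_le_of_lt (Nat.minFac_le (by omega)) h2) (Nat.minFac_dvd n)

theorem cf_prime {z p : ℕ} (hp : p.Prime) (h : z ≤ p) : cf z p = 1 := by
  unfold cf
  rw [if_pos]
  refine ⟨hp.pos, fun q hq hqz hqp => ?_⟩
  have := (Nat.prime_dvd_prime_iff_eq hq hp).1 hqp
  omega

theorem cf_mul (z d e : ℕ) : cf z (d * e) = cf z d * cf z e := by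
  unfold cf
  by_cases h1 : 0 < d ∧ ∀ p : ℕ, p.Prime → p < z → ¬ p ∣ d
  · by_cases h2 : 0 < e ∧ ∀ p : ℕ, p.Prime → p < z → ¬ p ∣ e
    · rw [if_pos h1, if_pos h2, if_pos, mul_one]
      refine ⟨Nat.mul_pos h1.1 h2.1, fun p hp hpz hpd => ?_⟩
      rcases hp.dvd_mul.1 hpd with h | h
      · exact h1.2 p hp hpz h
      · exact h2.2 p hp hpz h
    · rw [if_neg h2, if_neg, mul_zero]
      rintro ⟨h3, h4⟩
      exact h2 ⟨Nat.pos_of_mul_pos_left h3, fun p hp hpz hpe => h4 p hp hpz (hpe.mul_left d)⟩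
  · rw [if_neg h1, if_neg, zero_mul]
    rintro ⟨h3, h4⟩
    exact h1 ⟨Nat.pos_of_mul_pos_right h3, fun p hp hpz hpe => h4 p hp hpz (hpe.mul_right e)⟩

theorem sum_Icc_cf (z N : ℕ) : ∑ k ∈ Icc 0 N, cf z k = ∑ k ∈ Ioc 0 N, cf z k := by
  rw [← Ioc_insert_left (Nat.zero_le N), sum_insert left_notMem_Ioc, cf_zero, zero_add]

theorem Fr_Wf (z : ℕ) (t : ℝ) : Fr z t = Wf z 0 ⌊t⌋₊ := by
  classical
  unfold Fr Wf
  rw [sum_Icc_cf, card_filter, zero_add]
  push_cast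
  refine sum_congr rfl (fun k hk => ?_)
  rw [mem_Ioc] at hk
  unfold cf
  by_cases h : ∀ p : ℕ, p.Prime → p < z → ¬ p ∣ k
  · rw [if_pos ⟨hk.1, h⟩, if_pos h]
  · rw [if_neg (fun h' => h h'.2), if_neg h]

theorem Fr_nonneg (z : ℕ) (t : ℝ) : 0 ≤ Fr z t := sum_nonneg (fun _ _ => cf_nonneg _ _)

theorem Fr_mono (z : ℕ) : Monotone (Fr z) := by
  intro s t h
  unfold Fr
  refine sum_le_sum_of_subset_of_nonneg ?_ (fun _ _ _ => cf_nonneg _ _)
  exact Icc_subset_Icc_right (Nat.floor_mono h)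

theorem Fr_one {z : ℕ} {t : ℝ} (h1 : 1 ≤ t) (h2 : t < z) : Fr z t = 1 := by
  unfold Fr
  rw [sum_Icc_cf]
  have h3 : 1 ≤ ⌊t⌋₊ := Nat.le_floor (by exact_mod_cast h1)
  have h4 : ⌊t⌋₊ < z := by
    have := Nat.floor_le (by linarith : 0 ≤ t)
    exact_mod_cast lt_of_le_of_lt this h2
  rw [sum_eq_single 1]
  · exact cf_one z
  · intro b hb hb1
    rw [mem_Ioc] at hb
    exact cf_small (by omega) (by omega)
  · intro h
    exact absurd (mem_Ioc.2 ⟨one_pos, h3⟩) h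

theorem Vf_pos (z : ℕ) : 0 < Vf z := by
  unfold Vf
  refine prod_pos (fun p hp => ?_)
  have h1 : (1 : ℝ) < p := by exact_mod_cast (mem_filter.1 hp).2.one_lt
  have h2 : 1 / (p : ℝ) < 1 := by rw [div_lt_one (by linarith)]; exact h1
  linarith

theorem cf_anti {z w : ℕ} (h : z ≤ w) (n : ℕ) : cf w n ≤ cf z n := by
  unfold cf
  split_ifs with h1 h2 h2
  · exact le_rfl
  · exact absurd ⟨h1.1, fun p hp hpz => h1.2 p hp (by omega)⟩ h2
  · exact zero_le_one
  · exact le_rfl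

theorem Fr_anti {z w : ℕ} (h : z ≤ w) (t : ℝ) : Fr w t ≤ Fr z t := sum_le_sum (fun n _ => cf_anti h n)

/-- The count over a full period. -/
theorem period (z M : ℕ) : (Wf z 0 ((∏ p ∈ (range z).filter Nat.Prime, p) * M) : ℝ) =
    Vf z * ((∏ p ∈ (range z).filter Nat.Prime, p) * M : ℕ) := by
  classical
  obtain ⟨P, hP⟩ : ∃ P, P = ∏ p ∈ (range z).filter Nat.Prime, p := ⟨_, rfl⟩
  rw [← hP]
  have hpr : ∀ p ∈ (range z).filter Nat.Prime, p.Prime := fun p hp => (mem_filter.1 hp).2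
  have hP0 : P ≠ 0 := by rw [hP]; exact prod_ne_zero_iff.2 (fun p hp => (hpr p hp).ne_zero)
  have hfac : P.primeFactors = (range z).filter Nat.Prime := by rw [hP]; exact Nat.primeFactors_prod hpr
  have h1 : ∀ n, (∀ p : ℕ, p.Prime → p < z → ¬ p ∣ n) ↔ P.Coprime n := by
    intro n
    constructor
    · intro h
      by_contra hcon
      obtain ⟨p, hp, hpP, hpn⟩ := Nat.Prime.not_coprime_iff_dvd.1 hcon
      have h2 : p ∈ (range z).filter Nat.Prime := by rw [← hfac]; exact Nat.mem_primeFactors.2 ⟨hp, hpP, hP0⟩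
      exact h p hp (mem_range.1 (mem_filter.1 h2).1) hpn
    · intro h p hp hpz hpn
      have h2 : p ∣ P := by rw [hP]; exact dvd_prod_of_mem _ (mem_filter.2 ⟨mem_range.2 hpz, hp⟩)
      exact Nat.Prime.not_coprime_iff_dvd.2 ⟨p, hp, h2, hpn⟩ h
  have hcount : ∀ M, Wf z 0 (P * M) = M * Nat.totient P := by
    intro M
    induction M with
    | zero => unfold Wf; simp
    | succ M ih =>
      have e1 : Wf z 0 (P * (M + 1)) = Wf z 0 (P * M) + ((Ioc (P * M) (P * M + P)).filter (fun n => P.Coprime n)).card := by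
        unfold Wf
        rw [← card_union_of_disjoint]
        · congr 1
          rw [filter_congr (fun n _ => h1 n), filter_congr (fun n _ => h1 n), ← filter_union]
          congr 1
          ext n
          rw [mem_union, mem_Ioc, mem_Ioc, mem_Ioc, mul_add, mul_one]
          omega
        · rw [Finset.disjoint_left]
          intro n hn hn'
          rw [mem_filter, mem_Ioc] at hn hn'
          omega
      have e2 : ((Ioc (P * M) (P * M + P)).filter (fun n => P.Coprime n)).card = Nat.totient P := by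
        rw [← Nat.filter_coprime_Ico_eq_totient P (P * M + 1)]
        congr 1
        ext n
        simp only [mem_filter, mem_Ioc, mem_Ico]
        have : (P * M < n ∧ n ≤ P * M + P) ↔ (P * M + 1 ≤ n ∧ n < P * M + 1 + P) := by omega
        rw [this]
      rw [e1, ih, e2]
      ring
  have htot : (Nat.totient P : ℝ) = P * Vf z := by
    have h2 := Nat.totient_eq_mul_prod_factors P
    have h3 := congrArg (fun q : ℚ => (q : ℝ)) h2
    push_cast at h3
    rw [hfac] at h3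
    rw [h3]
    unfold Vf
    simp only [one_div]
  rw [hcount]
  push_cast
  rw [htot]
  ring

/-- The fundamental lemma with the true density. -/
theorem fund {κ : ℝ} (hκ : 0 < κ) (hκ1 : κ ≤ 1) : ∃ s : ℕ, 1 ≤ s ∧ ∃ z₀ : ℕ, 2 ≤ z₀ ∧ ∀ z : ℕ, z₀ ≤ z →
    Vf z * Real.log z ≤ 4 ∧ ∀ a y : ℕ, z ^ s ≤ y → |(Wf z a y : ℝ) - Vf z * y| ≤ κ / s * (Vf z * y) := by
  classical
  obtain ⟨s, hs, _, z₀, hz₀, h⟩ := Pool.Agent.H154R3.Fund.fundLemma (κ / 4) (by positivity)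
  refine ⟨s, hs, z₀, hz₀, fun z hz => ?_⟩
  obtain ⟨V, hV0, hV1, hV2⟩ := h z hz
  have hs1 : (1 : ℝ) ≤ s := by exact_mod_cast hs
  have hs0 : (0 : ℝ) < s := by linarith
  have hz2 : (2 : ℝ) ≤ z := by exact_mod_cast hz₀.trans hz
  have hlz : 0 < Real.log (z : ℝ) := Real.log_pos (by linarith)
  obtain ⟨e, he⟩ : ∃ e, e = κ / 4 / (s : ℝ) ^ 8 := ⟨_, rfl⟩
  have he0 : 0 < e := by rw [he]; positivity
  have hes : e ≤ κ / 4 / s := by
    rw [he]
    refine div_le_div_of_nonneg_left (by positivity) hs0 ?_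
    calc (s : ℝ) = s ^ 1 := (pow_one _).symm
      _ ≤ s ^ 8 := pow_le_pow_right₀ hs1 (by norm_num)
  have hes4 : e ≤ 1 / 4 := by
    refine hes.trans ?_
    rw [div_div, div_le_div_iff₀ (by positivity) (by norm_num)]
    nlinarith
  rw [← he] at hV2
  -- the density
  obtain ⟨P, hP⟩ : ∃ P, P = ∏ p ∈ (range z).filter Nat.Prime, p := ⟨_, rfl⟩
  have hP0 : 0 < P := by
    rw [hP]
    exact prod_pos (fun p hp => (mem_filter.1 hp).2.pos)
  have hW : ∀ a y : ℕ, (((Ioc a (a + y)).filter (fun n => ∀ p : ℕ, p.Prime → p < z → ¬ p ∣ n)).card : ℝ) = (Wf z a y : ℝ) := by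
    intro a y
    unfold Wf
    congr
  have hVV : |Vf z - V| ≤ e * V := by
    have h1 := hV2 0 (P * z ^ s) (Nat.le_mul_of_pos_left _ hP0)
    rw [hW, hP, period z (z ^ s), ← hP] at h1
    have hY : (0 : ℝ) < ((P * z ^ s : ℕ) : ℝ) := by
      have : 0 < P * z ^ s := Nat.mul_pos hP0 (pow_pos (by omega) _)
      exact_mod_cast this
    rw [← sub_mul, abs_mul, abs_of_pos hY] at h1
    exact le_of_mul_le_mul_right h1 hY
  have hV3 := abs_le.1 hVV
  have hVle : V ≤ 2 * Vf z := by nlinarith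
  have hVf2 : Vf z ≤ 2 * V := by nlinarith
  constructor
  · have h2 : V * Real.log z ≤ 2 := by
      rw [le_div_iff₀ hlz] at hV1
      exact hV1
    nlinarith
  · intro a y hy
    have h1 := hV2 a y hy
    rw [hW] at h1
    have hy0 : (0 : ℝ) ≤ y := Nat.cast_nonneg y
    have h2 : |(Wf z a y : ℝ) - Vf z * y| ≤ |(Wf z a y : ℝ) - V * y| + |V * y - Vf z * y| := abs_sub_le _ _ _
    have h3 : |V * y - Vf z * y| ≤ e * V * y := by
      rw [← sub_mul, abs_mul, abs_of_nonneg hy0, abs_sub_comm]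
      exact mul_le_mul_of_nonneg_right hVV hy0
    have h4 : 0 ≤ Vf z * y := mul_nonneg (Vf_pos z).le hy0
    calc |(Wf z a y : ℝ) - Vf z * y| ≤ 2 * (e * V * y) := by linarith
      _ = 2 * e * (V * y) := by ring
      _ ≤ 2 * e * (2 * Vf z * y) := mul_le_mul_of_nonneg_left (mul_le_mul_of_nonneg_right hVle hy0) (by linarith)
      _ = 4 * e * (Vf z * y) := by ring
      _ ≤ κ / s * (Vf z * y) := by
        refine mul_le_mul_of_nonneg_right ?_ h4
        calc 4 * e ≤ 4 * (κ / 4 / s) := by linarith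
          _ = κ / s := by ring

/-- The upper bound for the counting function. -/
theorem Fr_upper : ∃ (C : ℝ) (z₁ : ℕ), 1 ≤ C ∧ 2 ≤ z₁ ∧ ∀ z : ℕ, z₁ ≤ z → ∀ t : ℝ, 1 ≤ t → Fr z t ≤ 1 + C * (t / Real.log z) := by
  obtain ⟨s, hs, z₀, hz₀, h⟩ := fund one_pos le_rfl
  have hs0 : (1 : ℝ) ≤ s := by exact_mod_cast hs
  refine ⟨16 * s, (z₀ + 1) ^ s, by linarith, ?_, fun z hz t ht => ?_⟩
  · calc 2 ≤ z₀ + 1 := by omega
      _ = (z₀ + 1) ^ 1 := (pow_one _).symm
      _ ≤ (z₀ + 1) ^ s := Nat.pow_le_pow_right (by omega) hs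
  have hzz : z₀ + 1 ≤ z := le_trans (by
    calc z₀ + 1 = (z₀ + 1) ^ 1 := (pow_one _).symm
      _ ≤ (z₀ + 1) ^ s := Nat.pow_le_pow_right (by omega) hs) hz
  have hz1 : (1 : ℝ) < z := by exact_mod_cast (by omega : 1 < z)
  have hlz : 0 < Real.log (z : ℝ) := Real.log_pos hz1
  rcases lt_or_ge t z with h1 | h1
  · rw [Fr_one ht h1]
    have : 0 ≤ 16 * (s : ℝ) * (t / Real.log z) := by positivity
    linarith
  -- the auxiliary sifting limit
  obtain ⟨w, hw⟩ : ∃ w, w = min z ⌊t ^ ((1 : ℝ) / s)⌋₊ := ⟨_, rfl⟩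
  have ht0 : 0 < t := by linarith
  have hts : (t ^ ((1 : ℝ) / s)) ^ s = t := by
    rw [← Real.rpow_natCast, ← Real.rpow_mul ht0.le, one_div_mul_cancel (by positivity), Real.rpow_one]
  have hr1 : 1 ≤ t ^ ((1 : ℝ) / s) := Real.one_le_rpow ht (by positivity)
  have hws : (w : ℝ) ^ s ≤ t := by
    have h2 : (w : ℝ) ≤ t ^ ((1 : ℝ) / s) := by
      have h3 : (w : ℝ) ≤ (⌊t ^ ((1 : ℝ) / s)⌋₊ : ℝ) := by
        rw [hw]
        exact_mod_cast min_le_right _ _
      exact h3.trans (Nat.floor_le (by linarith))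
    calc (w : ℝ) ^ s ≤ (t ^ ((1 : ℝ) / s)) ^ s := pow_le_pow_left₀ (Nat.cast_nonneg w) h2 s
      _ = t := hts
  have hwz₀ : z₀ + 1 ≤ w := by
    rw [hw]
    refine le_min hzz (Nat.le_floor ?_)
    have h3 : (((z₀ + 1 : ℕ) : ℝ)) ^ s ≤ (t ^ ((1 : ℝ) / s)) ^ s := by
      rw [hts]
      exact le_trans (by exact_mod_cast hz) h1
    exact le_of_pow_le_pow_left₀ (by omega) (by linarith) h3
  have hwr : (2 : ℝ) ≤ w := by exact_mod_cast (by omega : 2 ≤ w)
  -- the logarithm of w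
  have hlw : Real.log z ≤ 2 * s * Real.log w := by
    rw [hw]
    rcases le_total z ⌊t ^ ((1 : ℝ) / s)⌋₊ with h2 | h2
    · rw [min_eq_left h2]
      nlinarith
    · rw [min_eq_right h2]
      have h3 : t ^ ((1 : ℝ) / s) ≤ (⌊t ^ ((1 : ℝ) / s)⌋₊ : ℝ) ^ 2 := by
        have h4 := Nat.lt_floor_add_one (t ^ ((1 : ℝ) / s))
        have h5 : (2 : ℝ) ≤ (⌊t ^ ((1 : ℝ) / s)⌋₊ : ℝ) := by
          rw [hw, min_eq_right h2] at hwr
          exact hwr
        nlinarith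
      have h4 : Real.log (t ^ ((1 : ℝ) / s)) ≤ Real.log ((⌊t ^ ((1 : ℝ) / s)⌋₊ : ℝ) ^ 2) := Real.log_le_log (by linarith) h3
      rw [Real.log_rpow ht0, Real.log_pow] at h4
      push_cast at h4
      have h5 : Real.log z ≤ Real.log t := Real.log_le_log (by linarith) h1
      have h6 : 1 / (s : ℝ) * Real.log t * s ≤ 2 * Real.log (⌊t ^ ((1 : ℝ) / s)⌋₊ : ℝ) * s := mul_le_mul_of_nonneg_right h4 (by linarith)
      have h7 : 1 / (s : ℝ) * Real.log t * s = Real.log t := by field_simp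
      linarith
  have hlw0 : 0 < Real.log (w : ℝ) := Real.log_pos (by linarith)
  obtain ⟨h2, h3⟩ := h w (by omega)
  have h4 := h3 0 ⌊t⌋₊ (Nat.le_floor (by exact_mod_cast hws))
  rw [← Fr_Wf] at h4
  have hft : (⌊t⌋₊ : ℝ) ≤ t := Nat.floor_le ht0.le
  have hft0 : (0 : ℝ) ≤ (⌊t⌋₊ : ℝ) := Nat.cast_nonneg _
  have h5 : Fr w t ≤ 2 * (Vf w * ⌊t⌋₊) := by
    have h6 := (abs_le.1 h4).2
    have h7 : 1 / (s : ℝ) * (Vf w * ⌊t⌋₊) ≤ 1 * (Vf w * ⌊t⌋₊) := by
      refine mul_le_mul_of_nonneg_right ?_ (mul_nonneg (Vf_pos w).le hft0)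
      rw [div_le_one (by linarith)]
      exact hs0
    linarith
  have h6 : Vf w ≤ 4 / Real.log w := by rw [le_div_iff₀ hlw0]; exact h2
  have h7 : 4 / Real.log w ≤ 8 * s / Real.log z := by
    rw [div_le_div_iff₀ hlw0 hlz]
    nlinarith
  have h8 : Fr z t ≤ Fr w t := Fr_anti (by rw [hw]; exact min_le_left _ _) t
  have h9 : Vf w * ⌊t⌋₊ ≤ 8 * s / Real.log z * t := mul_le_mul (h6.trans h7) hft hft0 (by positivity)
  calc Fr z t ≤ 2 * (8 * s / Real.log z * t) := by linarith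
    _ = 16 * s * (t / Real.log z) := by ring
    _ ≤ 1 + 16 * s * (t / Real.log z) := by linarith

end Pool.Agent.Q120.MG
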