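import Pool.Agent.H38.LR.T3997.Q120.MG.D1

/-!
# Partial summation
-/

set_option autoImplicit false

namespace Pool.Agent.Q120.MG

open Finset Filter Topology MeasureTheory

/-- The integral of `F(t)/t²`. -/
noncomputable def II (z : ℕ) (y : ℝ) : ℝ := ∫ t in (1 : ℝ)..y, Fr z t / t ^ 2

theorem int_Fr {z : ℕ} {g : ℝ → ℝ} {a b : ℝ} (hg : ContinuousOn g (Set.uIcc a b)) :
    IntervalIntegrable (fun t => Fr z t * g t) volume a b :=
  ((Fr_mono z).intervalIntegrable).mul_continuousOn hg

theorem int_Fr2 {z : ℕ} {a b : ℝ} (ha : 0 < a) (hab : a ≤ b) :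
    IntervalIntegrable (fun t => Fr z t / t ^ 2) volume a b := by
  have h1 : IntervalIntegrable (fun t => Fr z t * (t ^ 2)⁻¹) volume a b := by
    refine int_Fr ?_
    rw [Set.uIcc_of_le hab]
    refine ContinuousOn.inv₀ (by fun_prop) (fun t ht => ?_)
    have : 0 < t := lt_of_lt_of_le ha ht.1
    positivity
  exact h1.congr (fun t _ => (div_eq_mul_inv _ _).symm)

theorem II_sub {z : ℕ} {y y' : ℝ} (hy : 1 ≤ y) (hyy : y ≤ y') : II z y' - II z y = ∫ t in y..y', Fr z t / t ^ 2 := by
  unfold II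
  exact intervalIntegral.integral_interval_sub_left (int_Fr2 one_pos (by linarith)) (int_Fr2 one_pos hy)

theorem II_mono {z : ℕ} {y y' : ℝ} (hy : 1 ≤ y) (hyy : y ≤ y') : II z y ≤ II z y' := by
  have h1 := II_sub (z := z) hy hyy
  have h2 : 0 ≤ ∫ t in y..y', Fr z t / t ^ 2 :=
    intervalIntegral.integral_nonneg hyy (fun t _ => div_nonneg (Fr_nonneg z t) (sq_nonneg t))
  linarith

theorem log_int {y y' : ℝ} (hy : 0 < y) (hyy : y ≤ y') : ∫ t in y..y', 1 / t = Real.log y' - Real.log y := by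
  rw [integral_one_div_of_pos hy (by linarith), Real.log_div (by linarith) hy.ne']

/-- Upper bound for the differences. -/
theorem II_diff_le {z : ℕ} {K : ℝ} (hK : 0 ≤ K) (hF : ∀ t : ℝ, 1 ≤ t → Fr z t ≤ 1 + K * t) {y y' : ℝ} (hy : 1 ≤ y) (hyy : y ≤ y') :
    II z y' - II z y ≤ 1 / y + K * (Real.log y' - Real.log y) := by
  rw [II_sub hy hyy]
  have hy0 : 0 < y := by linarith
  have hmem : ∀ t ∈ Set.uIcc y y', 0 < t := by
    intro t ht
    rw [Set.uIcc_of_le hyy] at ht
    linarith [ht.1]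
  have i1 : IntervalIntegrable (fun t : ℝ => 1 / t ^ 2) volume y y' := by
    refine ContinuousOn.intervalIntegrable (ContinuousOn.div continuousOn_const (by fun_prop) (fun t ht => ?_))
    have := hmem t ht
    positivity
  have i2 : IntervalIntegrable (fun t : ℝ => K * (1 / t)) volume y y' := by
    refine ContinuousOn.intervalIntegrable (ContinuousOn.mul continuousOn_const (ContinuousOn.div continuousOn_const continuousOn_id (fun t ht => ?_)))
    exact (hmem t ht).ne'
  have h1 : ∫ t in y..y', Fr z t / t ^ 2 ≤ ∫ t in y..y', (1 / t ^ 2 + K * (1 / t)) := by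
    refine intervalIntegral.integral_mono_on hyy (int_Fr2 hy0 hyy) (i1.add i2) (fun t ht => ?_)
    have ht0 : 0 < t := by linarith [ht.1]
    have h2 := hF t (by linarith [ht.1])
    calc Fr z t / t ^ 2 ≤ (1 + K * t) / t ^ 2 := div_le_div_of_nonneg_right h2 (by positivity)
      _ = 1 / t ^ 2 + K * (1 / t) := by field_simp
  refine h1.trans ?_
  rw [intervalIntegral.integral_add i1 i2, intervalIntegral.integral_const_mul, log_int hy0 hyy]
  have h3 : ∫ t in y..y', 1 / t ^ 2 = 1 / y - 1 / y' := by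
    have h4 : ∀ t ∈ Set.uIcc y y', HasDerivAt (fun t : ℝ => -(1 / t)) (1 / t ^ 2) t := by
      intro t ht
      have ht0 := hmem t ht
      have h5 := (hasDerivAt_inv ht0.ne').neg
      rw [neg_neg] at h5
      have e1 : (fun t : ℝ => -(1 / t)) = -(fun t : ℝ => t⁻¹) := by
        funext s
        simp
      rw [e1]
      simpa using h5
    rw [intervalIntegral.integral_eq_sub_of_hasDerivAt h4 i1]
    ring
  rw [h3]
  have : 0 < 1 / y' := by
    have : 0 < y' := by linarith
    positivity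
  linarith

/-- Lower bound for the differences. -/
theorem le_II_diff {z : ℕ} {K : ℝ} {y y' : ℝ} (hy : 1 ≤ y) (hyy : y ≤ y') (hF : ∀ t : ℝ, y ≤ t → t ≤ y' → K * t ≤ Fr z t) :
    K * (Real.log y' - Real.log y) ≤ II z y' - II z y := by
  rw [II_sub hy hyy]
  have hy0 : 0 < y := by linarith
  have hmem : ∀ t ∈ Set.uIcc y y', 0 < t := by
    intro t ht
    rw [Set.uIcc_of_le hyy] at ht
    linarith [ht.1]
  have i2 : IntervalIntegrable (fun t : ℝ => K * (1 / t)) volume y y' := by
    refine ContinuousOn.intervalIntegrable (ContinuousOn.mul continuousOn_const (ContinuousOn.div continuousOn_const continuousOn_id (fun t ht => ?_)))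
    exact (hmem t ht).ne'
  rw [← log_int hy0 hyy, ← intervalIntegral.integral_const_mul]
  refine intervalIntegral.integral_mono_on hyy i2 (int_Fr2 hy0 hyy) (fun t ht => ?_)
  have ht0 : 0 < t := by linarith [ht.1]
  rw [le_div_iff₀ (by positivity)]
  have h2 := hF t ht.1 ht.2
  calc K * (1 / t) * t ^ 2 = K * t := by field_simp
    _ ≤ Fr z t := h2

theorem loglog_int {y y' : ℝ} (hy : 1 < y) (hyy : y ≤ y') :
    IntervalIntegrable (fun t : ℝ => 1 / (t * Real.log t)) volume y y' ∧
      ∫ t in y..y', 1 / (t * Real.log t) = Real.log (Real.log y') - Real.log (Real.log y) := by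
  have hmem : ∀ t ∈ Set.uIcc y y', 1 < t := by
    intro t ht
    rw [Set.uIcc_of_le hyy] at ht
    linarith [ht.1]
  have i1 : IntervalIntegrable (fun t : ℝ => 1 / (t * Real.log t)) volume y y' := by
    refine ContinuousOn.intervalIntegrable (ContinuousOn.div continuousOn_const (ContinuousOn.mul continuousOn_id ?_) (fun t ht => ?_))
    · exact Real.continuousOn_log.mono (fun t ht => by
        have := hmem t ht
        show t ≠ 0
        linarith)
    · have h1 := hmem t ht
      have h2 := Real.log_pos h1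
      have : 0 < t * Real.log t := by positivity
      exact this.ne'
  refine ⟨i1, ?_⟩
  have h4 : ∀ t ∈ Set.uIcc y y', HasDerivAt (fun t : ℝ => Real.log (Real.log t)) (1 / (t * Real.log t)) t := by
    intro t ht
    have h1 := hmem t ht
    have h2 := Real.log_pos h1
    have h3 := (Real.hasDerivAt_log (by linarith : t ≠ 0)).log h2.ne'
    refine h3.congr_deriv ?_
    field_simp
  rw [intervalIntegral.integral_eq_sub_of_hasDerivAt h4 i1]

/-- Bounds for the differences from bounds for `F(t) log t / t`. -/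
theorem II_diff_G {z : ℕ} {A B : ℝ} {y y' : ℝ} (hy : 1 < y) (hyy : y ≤ y')
    (hF : ∀ t : ℝ, y ≤ t → t ≤ y' → A ≤ Fr z t * Real.log t / t ∧ Fr z t * Real.log t / t ≤ B) :
    A * (Real.log (Real.log y') - Real.log (Real.log y)) ≤ II z y' - II z y ∧
      II z y' - II z y ≤ B * (Real.log (Real.log y') - Real.log (Real.log y)) := by
  obtain ⟨i1, h1⟩ := loglog_int hy hyy
  have hy0 : 0 < y := by linarith
  have hterm : ∀ t ∈ Set.Icc y y', Fr z t / t ^ 2 = (Fr z t * Real.log t / t) * (1 / (t * Real.log t)) ∧ 0 < 1 / (t * Real.log t) := by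
    intro t ht
    have h2 : 1 < t := by linarith [ht.1]
    have h3 := Real.log_pos h2
    have h4 : 0 < t := by linarith
    refine ⟨?_, by positivity⟩
    field_simp
  rw [II_sub hy.le hyy, ← h1]
  constructor
  · rw [← intervalIntegral.integral_const_mul]
    refine intervalIntegral.integral_mono_on hyy (i1.const_mul A) (int_Fr2 hy0 hyy) (fun t ht => ?_)
    obtain ⟨e1, e2⟩ := hterm t ht
    rw [e1]
    exact mul_le_mul_of_nonneg_right (hF t ht.1 ht.2).1 e2.le
  · rw [← intervalIntegral.integral_const_mul]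
    refine intervalIntegral.integral_mono_on hyy (int_Fr2 hy0 hyy) (i1.const_mul B) (fun t ht => ?_)
    obtain ⟨e1, e2⟩ := hterm t ht
    rw [e1]
    exact mul_le_mul_of_nonneg_right (hF t ht.1 ht.2).2 e2.le

/-- The sum of the reciprocals. -/
theorem abel_inv (z : ℕ) {y : ℝ} (hy : 1 ≤ y) : ∑ k ∈ Icc 0 ⌊y⌋₊, (k : ℝ)⁻¹ * cf z k = y⁻¹ * Fr z y + II z y := by
  have hd : ∀ t ∈ Set.Icc 1 y, DifferentiableAt ℝ (fun t : ℝ => t⁻¹) t := by
    intro t ht
    exact (differentiableAt_inv (by linarith [ht.1] : t ≠ 0))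
  have hder : ∀ t ∈ Set.Icc (1 : ℝ) y, deriv (fun t : ℝ => t⁻¹) t = -(t ^ 2)⁻¹ := fun t _ => deriv_inv
  have hi : IntegrableOn (deriv (fun t : ℝ => t⁻¹)) (Set.Icc 1 y) volume := by
    refine IntegrableOn.congr_fun (f := fun t : ℝ => -(t ^ 2)⁻¹) ?_ (fun t ht => (hder t ht).symm) measurableSet_Icc
    refine ContinuousOn.integrableOn_Icc (ContinuousOn.neg (ContinuousOn.inv₀ (by fun_prop) (fun t ht => ?_)))
    have : 0 < t := by linarith [ht.1]
    positivity
  have h1 := sum_mul_eq_sub_integral_mul₀ (cf z) (f := fun t : ℝ => t⁻¹) (cf_zero z) y hd hi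
  rw [h1]
  have h2 : ∫ t in Set.Ioc 1 y, deriv (fun t : ℝ => t⁻¹) t * ∑ k ∈ Icc 0 ⌊t⌋₊, cf z k = -II z y := by
    unfold II
    rw [intervalIntegral.integral_of_le hy, ← integral_neg]
    refine setIntegral_congr_fun measurableSet_Ioc (fun t ht => ?_)
    show deriv (fun t : ℝ => t⁻¹) t * Fr z t = -(Fr z t / t ^ 2)
    rw [hder t ⟨ht.1.le, ht.2⟩]
    ring
  rw [h2]
  show y⁻¹ * Fr z y - -II z y = _
  ring

/-- The sum of the logarithms. -/
theorem abel_log (z : ℕ) {x : ℝ} (hx : 1 ≤ x) : ∑ k ∈ Icc 0 ⌊x⌋₊, Real.log k * cf z k =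
    Real.log x * Fr z x - ∫ t in (1 : ℝ)..x, Fr z t * t⁻¹ := by
  have hd : ∀ t ∈ Set.Icc 1 x, DifferentiableAt ℝ Real.log t := by
    intro t ht
    exact Real.differentiableAt_log (by linarith [ht.1] : t ≠ 0)
  have hi : IntegrableOn (deriv Real.log) (Set.Icc 1 x) volume := by
    rw [Real.deriv_log']
    refine ContinuousOn.integrableOn_Icc (ContinuousOn.inv₀ continuousOn_id (fun t ht => ?_))
    have : 0 < t := by linarith [ht.1]
    exact this.ne'
  have h1 := sum_mul_eq_sub_integral_mul₀ (cf z) (f := Real.log) (cf_zero z) x hd hi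
  rw [h1]
  have h2 : ∫ t in Set.Ioc 1 x, deriv Real.log t * ∑ k ∈ Icc 0 ⌊t⌋₊, cf z k = ∫ t in (1 : ℝ)..x, Fr z t * t⁻¹ := by
    rw [intervalIntegral.integral_of_le hx]
    refine setIntegral_congr_fun measurableSet_Ioc (fun t ht => ?_)
    show deriv Real.log t * Fr z t = Fr z t * t⁻¹
    rw [Real.deriv_log, mul_comm]
  rw [h2]
  rfl

/-- The integral in the previous formula is small. -/
theorem small_int {z : ℕ} {K : ℝ} (hK : 0 ≤ K) (hF : ∀ t : ℝ, 1 ≤ t → Fr z t ≤ 1 + K * t) {x : ℝ} (hx : 1 ≤ x) :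
    0 ≤ ∫ t in (1 : ℝ)..x, Fr z t * t⁻¹ ∧ ∫ t in (1 : ℝ)..x, Fr z t * t⁻¹ ≤ Real.log x + K * x := by
  have hmem : ∀ t ∈ Set.uIcc 1 x, 0 < t := by
    intro t ht
    rw [Set.uIcc_of_le hx] at ht
    linarith [ht.1]
  constructor
  · exact intervalIntegral.integral_nonneg hx (fun t ht => mul_nonneg (Fr_nonneg z t) (inv_nonneg.2 (by linarith [ht.1])))
  · have i1 : IntervalIntegrable (fun t : ℝ => 1 / t) volume 1 x :=
      ContinuousOn.intervalIntegrable (ContinuousOn.div continuousOn_const continuousOn_id (fun t ht => (hmem t ht).ne'))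
    have i2 : IntervalIntegrable (fun _ : ℝ => K) volume 1 x := intervalIntegrable_const
    have h1 : ∫ t in (1 : ℝ)..x, Fr z t * t⁻¹ ≤ ∫ t in (1 : ℝ)..x, (1 / t + K) := by
      refine intervalIntegral.integral_mono_on hx (int_Fr (ContinuousOn.inv₀ continuousOn_id (fun t ht => (hmem t ht).ne')))
        (i1.add i2) (fun t ht => ?_)
      have ht0 : 0 < t := by linarith [ht.1]
      have h2 := hF t ht.1
      calc Fr z t * t⁻¹ ≤ (1 + K * t) * t⁻¹ := mul_le_mul_of_nonneg_right h2 (by positivity)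
        _ = 1 / t + K := by field_simp
    refine h1.trans ?_
    rw [intervalIntegral.integral_add i1 i2, log_int one_pos hx, intervalIntegral.integral_const, Real.log_one, smul_eq_mul]
    nlinarith

/-- Before `z` the function is explicit. -/
theorem II_small {z : ℕ} {y : ℝ} (hy : 1 ≤ y) (hyz : y < z) : II z y = 1 - 1 / y := by
  unfold II
  have hmem : ∀ t ∈ Set.uIcc 1 y, 0 < t := by
    intro t ht
    rw [Set.uIcc_of_le hy] at ht
    linarith [ht.1]
  have i1 : IntervalIntegrable (fun t : ℝ => 1 / t ^ 2) volume 1 y := by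
    refine ContinuousOn.intervalIntegrable (ContinuousOn.div continuousOn_const (by fun_prop) (fun t ht => ?_))
    have := hmem t ht
    positivity
  have h1 : ∫ t in (1 : ℝ)..y, Fr z t / t ^ 2 = ∫ t in (1 : ℝ)..y, 1 / t ^ 2 := by
    refine intervalIntegral.integral_congr (fun t ht => ?_)
    rw [Set.uIcc_of_le hy] at ht
    show Fr z t / t ^ 2 = 1 / t ^ 2
    rw [Fr_one ht.1 (lt_of_le_of_lt ht.2 hyz)]
  have h4 : ∀ t ∈ Set.uIcc 1 y, HasDerivAt (fun t : ℝ => -(1 / t)) (1 / t ^ 2) t := by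
    intro t ht
    have ht0 := hmem t ht
    have h5 := (hasDerivAt_inv ht0.ne').neg
    rw [neg_neg] at h5
    have e1 : (fun t : ℝ => -(1 / t)) = -(fun t : ℝ => t⁻¹) := by
      funext s
      simp
    rw [e1]
    simpa using h5
  rw [h1, intervalIntegral.integral_eq_sub_of_hasDerivAt h4 i1]
  norm_num
  ring

end Pool.Agent.Q120.MG
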