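import Pool.Agent.H38.LR.T3997.Q120.MG.D2

/-!
# The identity for the numbers without small prime factors
-/

set_option autoImplicit false

namespace Pool.Agent.Q120.MG

open Finset Filter Topology MeasureTheory

/-- The sum of the von Mangoldt function over the integers without prime factors below `z`. -/
noncomputable def psz (z n : ℕ) : ℝ := ∑ e ∈ Ioc 0 n, cf z e * ArithmeticFunction.vonMangoldt e

theorem log_sum (z N : ℕ) : ∑ k ∈ Icc 0 N, Real.log k * cf z k = ∑ m ∈ Ioc 0 N, cf z m * psz z (N / m) := by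
  obtain ⟨f, hf⟩ : ∃ f : ArithmeticFunction ℝ, f = ⟨fun n => cf z n, cf_zero z⟩ := ⟨_, rfl⟩
  obtain ⟨g, hg⟩ : ∃ g : ArithmeticFunction ℝ, g = ⟨fun n => cf z n * ArithmeticFunction.vonMangoldt n, by simp [cf_zero]⟩ := ⟨_, rfl⟩
  have hf1 : ∀ n, f n = cf z n := by
    intro n
    rw [hf]
    rfl
  have hg1 : ∀ n, g n = cf z n * ArithmeticFunction.vonMangoldt n := by
    intro n
    rw [hg]
    rfl
  have h := ArithmeticFunction.sum_Ioc_mul_eq_sum_sum f g N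
  have h1 : ∀ n ∈ Ioc 0 N, (f * g) n = Real.log n * cf z n := by
    intro n _
    rw [ArithmeticFunction.mul_apply]
    have h2 : ∀ x ∈ n.divisorsAntidiagonal, f x.1 * g x.2 = cf z n * ArithmeticFunction.vonMangoldt x.2 := by
      intro x hx
      rw [hf1, hg1, ← mul_assoc, ← cf_mul, (Nat.mem_divisorsAntidiagonal.1 hx).1]
    rw [sum_congr rfl h2, ← mul_sum,
      Nat.sum_divisorsAntidiagonal' (n := n) (fun _ j => (ArithmeticFunction.vonMangoldt j : ℝ)),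
      ArithmeticFunction.vonMangoldt_sum, mul_comm]
  rw [sum_congr rfl h1] at h
  have h3 : ∑ k ∈ Icc 0 N, Real.log k * cf z k = ∑ k ∈ Ioc 0 N, Real.log k * cf z k := by
    rw [← Ioc_insert_left (Nat.zero_le N), sum_insert left_notMem_Ioc, cf_zero, mul_zero, zero_add]
  rw [h3, h]
  refine sum_congr rfl (fun m _ => ?_)
  rw [hf1]
  unfold psz
  rw [sum_congr rfl (fun e _ => hg1 e)]

theorem psz_nonneg (z n : ℕ) : 0 ≤ psz z n :=
  sum_nonneg (fun e _ => mul_nonneg (cf_nonneg z e) ArithmeticFunction.vonMangoldt_nonneg)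

theorem psz_zero {z n : ℕ} (h : n < z) : psz z n = 0 := by
  unfold psz
  refine sum_eq_zero (fun e he => ?_)
  rw [mem_Ioc] at he
  rcases Nat.lt_or_ge 1 e with h1 | h1
  · rw [cf_small h1 (by omega), zero_mul]
  · have : e = 1 := by omega
    rw [this, ArithmeticFunction.vonMangoldt_apply_one, mul_zero]

theorem psz_le (z : ℕ) (x : ℝ) : psz z ⌊x⌋₊ ≤ Chebyshev.psi x := by
  unfold psz Chebyshev.psi
  refine sum_le_sum (fun e _ => ?_)
  have h1 := cf_le z e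
  have h2 : 0 ≤ ArithmeticFunction.vonMangoldt e := ArithmeticFunction.vonMangoldt_nonneg
  nlinarith

theorem le_psz (z : ℕ) (x : ℝ) : Chebyshev.theta x - Real.log 4 * z ≤ psz z ⌊x⌋₊ := by
  have h1 : Chebyshev.theta x ≤ psz z ⌊x⌋₊ + Chebyshev.theta z := by
    unfold Chebyshev.theta psz
    rw [Nat.floor_natCast, sum_filter]
    have h2 : ∑ p ∈ Ioc 0 z with p.Prime, Real.log p = ∑ p ∈ Ioc 0 z, (if p.Prime then Real.log p else 0) := sum_filter _ _
    rw [h2]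
    have h3 : ∀ p ∈ Ioc 0 ⌊x⌋₊, (if p.Prime then Real.log (p : ℝ) else 0) ≤
        cf z p * ArithmeticFunction.vonMangoldt p + (if p ≤ z then (if p.Prime then Real.log (p : ℝ) else 0) else 0) := by
      intro p hp
      have hlog : 0 ≤ Real.log (p : ℝ) := Real.log_natCast_nonneg p
      have h0 : 0 ≤ cf z p * ArithmeticFunction.vonMangoldt p := mul_nonneg (cf_nonneg z p) ArithmeticFunction.vonMangoldt_nonneg
      by_cases hpp : p.Prime
      · rw [if_pos hpp]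
        rcases Nat.lt_or_ge z p with h4 | h4
        · rw [if_neg (by omega), cf_prime hpp h4.le, ArithmeticFunction.vonMangoldt_apply_prime hpp]
          linarith
        · rw [if_pos h4]
          linarith
      · rw [if_neg hpp]
        have h5 : (if p ≤ z then (0 : ℝ) else 0) = 0 := by split_ifs <;> rfl
        rw [h5]
        linarith
    refine (sum_le_sum h3).trans ?_
    rw [sum_add_distrib]
    have h6 : ∑ p ∈ Ioc 0 ⌊x⌋₊, (if p ≤ z then (if p.Prime then Real.log (p : ℝ) else 0) else 0) ≤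
        ∑ p ∈ Ioc 0 z, (if p.Prime then Real.log (p : ℝ) else 0) := by
      rw [← sum_filter]
      refine sum_le_sum_of_subset_of_nonneg ?_ ?_
      · intro p hp
        rw [mem_filter, mem_Ioc] at hp
        exact mem_Ioc.2 ⟨hp.1.1, hp.2⟩
      · intro p _ _
        split_ifs
        · exact Real.log_natCast_nonneg p
        · exact le_rfl
    linarith
  have h2 := Chebyshev.theta_le_log4_mul_x (x := (z : ℝ)) (Nat.cast_nonneg z)
  linarith

/-- Upper bound for the sum. -/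
theorem up_sum {z : ℕ} {ε T x : ℝ} (hT : ∀ t : ℝ, T ≤ t → Chebyshev.psi t ≤ (1 + ε) * t) (hz : T ≤ z) (hz1 : 1 ≤ z)
    (hx : (z : ℝ) ≤ x) : ∑ m ∈ Ioc 0 ⌊x⌋₊, cf z m * psz z (⌊x⌋₊ / m) ≤
      (1 + ε) * x * ∑ k ∈ Icc 0 ⌊x / z⌋₊, (k : ℝ)⁻¹ * cf z k := by
  have hz0 : (0 : ℝ) < z := by exact_mod_cast hz1
  have hz1' : (1 : ℝ) ≤ z := by exact_mod_cast hz1
  have hx0 : 0 < x := by linarith
  have hsub : Ioc 0 ⌊x / z⌋₊ ⊆ Ioc 0 ⌊x⌋₊ := by
    refine Ioc_subset_Ioc_right (Nat.floor_mono ?_)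
    rw [div_le_iff₀ hz0]
    nlinarith
  have h1 : ∑ m ∈ Ioc 0 ⌊x⌋₊, cf z m * psz z (⌊x⌋₊ / m) = ∑ m ∈ Ioc 0 ⌊x / z⌋₊, cf z m * psz z (⌊x⌋₊ / m) := by
    symm
    refine sum_subset hsub (fun m hm hm' => ?_)
    rw [mem_Ioc] at hm hm'
    have h2 : ⌊x / z⌋₊ < m := by
      by_contra hcon
      exact hm' ⟨hm.1, by omega⟩
    have h3 : x / z < m := (Nat.floor_lt (by positivity)).1 h2
    have hm0 : (0 : ℝ) < m := by exact_mod_cast hm.1
    have h4 : ⌊x⌋₊ / m < z := by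
      rw [← Nat.floor_div_natCast, Nat.floor_lt (by positivity), div_lt_iff₀ hm0]
      rw [div_lt_iff₀ hz0] at h3
      linarith
    rw [psz_zero h4, mul_zero]
  have h5 : ∑ k ∈ Icc 0 ⌊x / z⌋₊, (k : ℝ)⁻¹ * cf z k = ∑ k ∈ Ioc 0 ⌊x / z⌋₊, (k : ℝ)⁻¹ * cf z k := by
    rw [← Ioc_insert_left (Nat.zero_le _), sum_insert left_notMem_Ioc, cf_zero, mul_zero, zero_add]
  rw [h1, h5, mul_sum]
  refine sum_le_sum (fun m hm => ?_)
  rw [mem_Ioc] at hm
  have hm0 : (0 : ℝ) < m := by exact_mod_cast hm.1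
  have h6 : (m : ℝ) ≤ x / z := (Nat.le_floor_iff (by positivity)).1 hm.2
  have h7 : (z : ℝ) ≤ x / m := by
    rw [le_div_iff₀ hm0]
    rw [le_div_iff₀ hz0] at h6
    linarith
  rw [← Nat.floor_div_natCast]
  have h8 := (psz_le z (x / m)).trans (hT _ (hz.trans h7))
  calc cf z m * psz z ⌊x / m⌋₊ ≤ cf z m * ((1 + ε) * (x / m)) := mul_le_mul_of_nonneg_left h8 (cf_nonneg z m)
    _ = (1 + ε) * x * ((m : ℝ)⁻¹ * cf z m) := by
      rw [div_eq_mul_inv]
      ring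

/-- Lower bound for the sum. -/
theorem low_sum {z : ℕ} {ε T x w : ℝ} (hT : ∀ t : ℝ, T ≤ t → (1 - ε) * t ≤ Chebyshev.theta t) (hw : T ≤ w) (hw1 : 1 ≤ w)
    (hwz : Real.log 4 * z ≤ ε * w) (hε : 0 ≤ ε) (hx : w ≤ x) :
    (1 - 2 * ε) * x * ∑ k ∈ Icc 0 ⌊x / w⌋₊, (k : ℝ)⁻¹ * cf z k ≤ ∑ m ∈ Ioc 0 ⌊x⌋₊, cf z m * psz z (⌊x⌋₊ / m) := by
  have hw0 : (0 : ℝ) < w := by linarith
  have hx0 : 0 < x := by linarith
  have hsub : Ioc 0 ⌊x / w⌋₊ ⊆ Ioc 0 ⌊x⌋₊ := by
    refine Ioc_subset_Ioc_right (Nat.floor_mono ?_)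
    rw [div_le_iff₀ hw0]
    nlinarith
  have h5 : ∑ k ∈ Icc 0 ⌊x / w⌋₊, (k : ℝ)⁻¹ * cf z k = ∑ k ∈ Ioc 0 ⌊x / w⌋₊, (k : ℝ)⁻¹ * cf z k := by
    rw [← Ioc_insert_left (Nat.zero_le _), sum_insert left_notMem_Ioc, cf_zero, mul_zero, zero_add]
  rw [h5, mul_sum]
  have h1 : ∑ m ∈ Ioc 0 ⌊x / w⌋₊, cf z m * psz z (⌊x⌋₊ / m) ≤ ∑ m ∈ Ioc 0 ⌊x⌋₊, cf z m * psz z (⌊x⌋₊ / m) :=
    sum_le_sum_of_subset_of_nonneg hsub (fun m _ _ => mul_nonneg (cf_nonneg z m) (psz_nonneg _ _))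
  refine le_trans (sum_le_sum (fun m hm => ?_)) h1
  rw [mem_Ioc] at hm
  have hm0 : (0 : ℝ) < m := by exact_mod_cast hm.1
  have h6 : (m : ℝ) ≤ x / w := (Nat.le_floor_iff (by positivity)).1 hm.2
  have h7 : w ≤ x / m := by
    rw [le_div_iff₀ hm0]
    rw [le_div_iff₀ hw0] at h6
    linarith
  rw [← Nat.floor_div_natCast]
  have h8 := le_psz z (x / m)
  have h9 := hT _ (hw.trans h7)
  have h10 : Real.log 4 * z ≤ ε * (x / m) := hwz.trans (mul_le_mul_of_nonneg_left h7 hε)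
  have h11 : (1 - 2 * ε) * (x / m) ≤ psz z ⌊x / m⌋₊ := by linarith
  calc (1 - 2 * ε) * x * ((m : ℝ)⁻¹ * cf z m) = cf z m * ((1 - 2 * ε) * (x / m)) := by
        rw [div_eq_mul_inv]
        ring
    _ ≤ cf z m * psz z ⌊x / m⌋₊ := mul_le_mul_of_nonneg_left h11 (cf_nonneg z m)

/-- The identity. -/
theorem star {a S η : ℝ} (ha : 1 < a) (hη : 0 < η) : ∃ z₀ : ℕ, 2 ≤ z₀ ∧ ∀ z : ℕ, z₀ ≤ z → ∀ x : ℝ, (z : ℝ) ^ a ≤ x →
    x ≤ (z : ℝ) ^ S → |Fr z x * Real.log x / x - II z (x / z)| ≤ η := by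
  obtain ⟨C, z₁, hC, hz₁, hup⟩ := Fr_upper
  obtain ⟨B, hB⟩ : ∃ B, B = 2 + C * |S| := ⟨_, rfl⟩
  have hB0 : 0 < B := by rw [hB]; positivity
  obtain ⟨ε, hε⟩ : ∃ ε, ε = min (1 / 4) (η / (8 * B)) := ⟨_, rfl⟩
  have hε0 : 0 < ε := by rw [hε]; exact lt_min (by norm_num) (by positivity)
  have hε1 : ε ≤ 1 / 4 := by rw [hε]; exact min_le_left _ _
  have hεB : ε * B ≤ η / 8 := by
    have h1 : ε ≤ η / (8 * B) := by rw [hε]; exact min_le_right _ _
    calc ε * B ≤ η / (8 * B) * B := mul_le_mul_of_nonneg_right h1 hB0.le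
      _ = η / 8 := by field_simp
  obtain ⟨θ, hθ⟩ : ∃ θ, θ = min ((a - 1) / 2) (η / (8 * C)) := ⟨_, rfl⟩
  have hθ0 : 0 < θ := by rw [hθ]; exact lt_min (by linarith) (by positivity)
  have hθa : θ ≤ (a - 1) / 2 := by rw [hθ]; exact min_le_left _ _
  have hθC : C * θ ≤ η / 8 := by
    have h1 : θ ≤ η / (8 * C) := by rw [hθ]; exact min_le_right _ _
    calc C * θ ≤ C * (η / (8 * C)) := mul_le_mul_of_nonneg_left h1 (by linarith)
      _ = η / 8 := by field_simp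
  -- the prime number theorem
  have hpsi : ∀ᶠ t : ℝ in atTop, Chebyshev.psi t ≤ (1 + ε) * t := by
    filter_upwards [Pool.Agent.Cov.PNT.psi_div_tendsto.eventually (ge_mem_nhds (by linarith : (1 : ℝ) < 1 + ε)),
      eventually_gt_atTop 0] with t h1 h2
    rwa [div_le_iff₀ h2] at h1
  have htheta : ∀ᶠ t : ℝ in atTop, (1 - ε) * t ≤ Chebyshev.theta t := by
    filter_upwards [Pool.Agent.Cov.PNT.theta_div_tendsto.eventually (le_mem_nhds (by linarith : 1 - ε < (1 : ℝ))),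
      eventually_gt_atTop 0] with t h1 h2
    rwa [le_div_iff₀ h2] at h1
  obtain ⟨T₁, hT₁⟩ := eventually_atTop.1 hpsi
  obtain ⟨T₂, hT₂⟩ := eventually_atTop.1 htheta
  have hlx : ∀ᶠ t : ℝ in atTop, Real.log t / t ≤ η / 16 := by
    have h1 : Tendsto (fun t : ℝ => Real.log t / t) atTop (𝓝 0) := by
      have := Real.tendsto_pow_log_div_mul_add_atTop 1 0 1 one_ne_zero
      simpa using this
    exact h1.eventually (ge_mem_nhds (by positivity))
  obtain ⟨T₃, hT₃⟩ := eventually_atTop.1 hlx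
  have hcast : Tendsto (fun z : ℕ => (z : ℝ)) atTop atTop := tendsto_natCast_atTop_atTop
  have e3 : ∀ᶠ z : ℕ in atTop, C / Real.log z ≤ η / 16 := by
    have h1 : Tendsto (fun z : ℕ => C / Real.log (z : ℝ)) atTop (𝓝 0) :=
      Tendsto.div_atTop tendsto_const_nhds (Real.tendsto_log_atTop.comp hcast)
    exact h1.eventually (ge_mem_nhds (by positivity))
  have e4 : ∀ᶠ z : ℕ in atTop, 16 / η ≤ (z : ℝ) ^ ((a - 1) / 2) :=
    ((tendsto_rpow_atTop (by linarith : 0 < (a - 1) / 2)).comp hcast).eventually (eventually_ge_atTop _)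
  have e5 : ∀ᶠ z : ℕ in atTop, Real.log 4 / ε ≤ (z : ℝ) ^ θ :=
    ((tendsto_rpow_atTop hθ0).comp hcast).eventually (eventually_ge_atTop _)
  have eall := ((((((eventually_ge_atTop z₁).and (hcast.eventually (eventually_ge_atTop T₁))).and
    (hcast.eventually (eventually_ge_atTop T₂))).and (hcast.eventually (eventually_ge_atTop T₃))).and e3).and e4).and e5
  obtain ⟨z₀, hz₀⟩ := eventually_atTop.1 eall
  refine ⟨max z₀ 2, le_max_right _ _, fun z hz x hx1 hx2 => ?_⟩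
  obtain ⟨⟨⟨⟨⟨⟨hzz₁, hzT₁⟩, hzT₂⟩, hzT₃⟩, hK16⟩, h16⟩, h5⟩ := hz₀ z (le_trans (le_max_left _ _) hz)
  have hz2 : 2 ≤ z := le_trans (le_max_right _ _) hz
  have hzr : (2 : ℝ) ≤ z := by exact_mod_cast hz2
  have hz0 : (0 : ℝ) < z := by linarith
  have hlz : 0 < Real.log (z : ℝ) := Real.log_pos (by linarith)
  obtain ⟨K, hK⟩ : ∃ K, K = C / Real.log z := ⟨_, rfl⟩
  have hK0 : 0 ≤ K := by rw [hK]; positivity
  rw [← hK] at hK16
  have hKz : K * Real.log z = C := by rw [hK]; field_simp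
  have hF : ∀ t : ℝ, 1 ≤ t → Fr z t ≤ 1 + K * t := by
    intro t ht
    have h1 := hup z hzz₁ t ht
    have h2 : C * (t / Real.log z) = K * t := by rw [hK]; ring
    rw [h2] at h1
    exact h1
  have hza : (z : ℝ) ≤ (z : ℝ) ^ a := by
    calc (z : ℝ) = (z : ℝ) ^ (1 : ℝ) := (Real.rpow_one _).symm
      _ ≤ (z : ℝ) ^ a := Real.rpow_le_rpow_of_exponent_le (by linarith) ha.le
  have hxz : (z : ℝ) ≤ x := hza.trans hx1
  have hx0 : 0 < x := by linarith
  -- the points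
  obtain ⟨y, hy⟩ : ∃ y, y = x / z := ⟨_, rfl⟩
  obtain ⟨w, hw⟩ : ∃ w, w = (z : ℝ) ^ (1 + θ) := ⟨_, rfl⟩
  have hw' : w = z * (z : ℝ) ^ θ := by rw [hw, Real.rpow_add hz0, Real.rpow_one]
  have hzw : (z : ℝ) ≤ w := by
    rw [hw']
    have : 1 ≤ (z : ℝ) ^ θ := Real.one_le_rpow (by linarith) hθ0.le
    nlinarith
  have hw0 : 0 < w := by linarith
  obtain ⟨y₀, hy₀⟩ : ∃ y₀, y₀ = x / w := ⟨_, rfl⟩
  have hy₀16 : 16 / η ≤ y₀ := by
    refine h16.trans ?_
    rw [hy₀, le_div_iff₀ hw0, hw, ← Real.rpow_add hz0]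
    refine le_trans ?_ hx1
    exact Real.rpow_le_rpow_of_exponent_le (by linarith) (by linarith)
  have hza1 : 1 ≤ (z : ℝ) ^ ((a - 1) / 2) := Real.one_le_rpow (by linarith) (by linarith)
  have hy₀1 : 1 ≤ y₀ := by
    refine hza1.trans ?_
    rw [hy₀, le_div_iff₀ hw0, hw, ← Real.rpow_add hz0]
    refine le_trans ?_ hx1
    exact Real.rpow_le_rpow_of_exponent_le (by linarith) (by linarith)
  have hyy : y₀ ≤ y := by
    rw [hy₀, hy]
    exact div_le_div_of_nonneg_left hx0.le hz0 hzw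
  have hy1 : 1 ≤ y := hy₀1.trans hyy
  have hy0 : 0 < y := by linarith
  have hy00 : 0 < y₀ := by linarith
  have hwx : w ≤ x := by
    rw [hy₀, le_div_iff₀ hw0] at hy₀1
    linarith
  have hinv₀ : 1 / y₀ ≤ η / 16 := by
    rw [div_le_iff₀ hη] at hy₀16
    rw [div_le_div_iff₀ hy00 (by norm_num)]
    linarith
  have hinv : 1 / y ≤ η / 16 := (one_div_le_one_div_of_le hy00 hyy).trans hinv₀
  -- logarithms
  have hlogx : Real.log x ≤ |S| * Real.log z := by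
    have h1 := Real.log_le_log hx0 hx2
    rw [Real.log_rpow hz0] at h1
    have h2 := le_abs_self S
    nlinarith
  have hlogy : Real.log y ≤ Real.log x := by
    refine Real.log_le_log hy0 ?_
    rw [hy, div_le_iff₀ hz0]
    nlinarith
  have hlogd : Real.log y - Real.log y₀ = θ * Real.log z := by
    rw [hy, hy₀, Real.log_div hx0.ne' hz0.ne', Real.log_div hx0.ne' hw0.ne', hw, Real.log_rpow hz0]
    ring
  have hII1 : II z y ≤ B := by
    have h1 := II_diff_le hK0 hF le_rfl hy1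
    have h2 : II z 1 = 0 := by
      unfold II
      exact intervalIntegral.integral_same
    rw [h2, Real.log_one, sub_zero, sub_zero] at h1
    have h3 : K * Real.log y ≤ K * (|S| * Real.log z) := mul_le_mul_of_nonneg_left (hlogy.trans hlogx) hK0
    have h4 : K * (|S| * Real.log z) = C * |S| := by rw [← hKz]; ring
    rw [hB]
    norm_num at h1
    linarith
  have hII0 : 0 ≤ II z y₀ := by
    have h1 := II_mono (z := z) (y := 1) le_rfl hy₀1
    have h2 : II z 1 = 0 := by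
      unfold II
      exact intervalIntegral.integral_same
    linarith
  have hIIm : II z y₀ ≤ II z y := II_mono hy₀1 hyy
  have hIId : II z y ≤ II z y₀ + η / 16 + η / 8 := by
    have h1 := II_diff_le hK0 hF hy₀1 hyy
    rw [hlogd] at h1
    have h2 : K * (θ * Real.log z) = C * θ := by rw [← hKz]; ring
    linarith
  -- the sum
  obtain ⟨P, hP⟩ : ∃ P, P = ∑ m ∈ Ioc 0 ⌊x⌋₊, cf z m * psz z (⌊x⌋₊ / m) := ⟨_, rfl⟩
  have hx1' : 1 ≤ x := by linarith
  have hab := abel_log z hx1'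
  rw [log_sum, ← hP] at hab
  obtain ⟨hJ0, hJ1⟩ := small_int hK0 hF hx1'
  obtain ⟨J, hJ⟩ : ∃ J, J = ∫ t in (1 : ℝ)..x, Fr z t * t⁻¹ := ⟨_, rfl⟩
  rw [← hJ] at hab hJ0 hJ1
  have hG : Fr z x * Real.log x / x = P / x + J / x := by
    rw [← add_div, hab]
    ring
  have hJx0 : 0 ≤ J / x := div_nonneg hJ0 hx0.le
  have hJx1 : J / x ≤ η / 16 + η / 16 := by
    calc J / x ≤ (Real.log x + K * x) / x := div_le_div_of_nonneg_right hJ1 hx0.le
      _ = Real.log x / x + K := by field_simp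
      _ ≤ η / 16 + η / 16 := add_le_add (hT₃ x (hzT₃.trans hxz)) hK16
  have hPup : P / x ≤ (1 + ε) * (1 / y + K + II z y) := by
    have h1 := up_sum hT₁ hzT₁ (by omega) hxz
    rw [← hP, ← hy, abel_inv z hy1] at h1
    rw [div_le_iff₀ hx0]
    have h2 : y⁻¹ * Fr z y ≤ 1 / y + K := by
      calc y⁻¹ * Fr z y ≤ y⁻¹ * (1 + K * y) := mul_le_mul_of_nonneg_left (hF y hy1) (by positivity)
        _ = 1 / y + K := by field_simp
    calc P ≤ (1 + ε) * x * (y⁻¹ * Fr z y + II z y) := h1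
      _ ≤ (1 + ε) * x * (1 / y + K + II z y) := mul_le_mul_of_nonneg_left (by linarith) (by positivity)
      _ = (1 + ε) * (1 / y + K + II z y) * x := by ring
  have hPlow : (1 - 2 * ε) * II z y₀ ≤ P / x := by
    have hwz : Real.log 4 * z ≤ ε * w := by
      rw [hw']
      rw [div_le_iff₀ hε0] at h5
      nlinarith
    have h1 := low_sum hT₂ (hzT₂.trans hzw) (by linarith) hwz hε0.le hwx
    rw [← hP, ← hy₀, abel_inv z hy₀1] at h1
    rw [le_div_iff₀ hx0]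
    have h2 : 0 ≤ y₀⁻¹ * Fr z y₀ := mul_nonneg (by positivity) (Fr_nonneg z y₀)
    calc (1 - 2 * ε) * II z y₀ * x = (1 - 2 * ε) * x * (0 + II z y₀) := by ring
      _ ≤ (1 - 2 * ε) * x * (y₀⁻¹ * Fr z y₀ + II z y₀) := by
        refine mul_le_mul_of_nonneg_left (by linarith) ?_
        have : 0 ≤ 1 - 2 * ε := by linarith
        positivity
      _ ≤ P := h1
  have hIIn : 0 ≤ II z y := hII0.trans hIIm
  have hεII : ε * II z y ≤ η / 8 := (mul_le_mul_of_nonneg_left hII1 hε0.le).trans hεB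
  have hεII0 : ε * II z y₀ ≤ η / 8 := (mul_le_mul_of_nonneg_left (hIIm.trans hII1) hε0.le).trans hεB
  rw [hG, ← hy, abs_le]
  constructor
  · nlinarith
  · have h6 : ε * (1 / y + K) ≤ 1 / 4 * (η / 16 + η / 16) :=
      mul_le_mul hε1 (add_le_add hinv hK16) (by positivity) (by norm_num)
    nlinarith

end Pool.Agent.Q120.MG
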