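import Pool.Agent.H38.LR.T3997.Q120.MG.D4

/-!
# Proof of DEF
-/

set_option autoImplicit false

namespace Pool.Agent.Q120.MG

open Finset Filter Topology MeasureTheory

/-- Without a deficit the counting function is close to its expected value. -/
theorem start {u a e : ℝ} (hu : 1 ≤ u) (ha : u + 2 ≤ a) (he : 0 < e) : ∃ S κ : ℝ, 0 < κ ∧ κ < 1 ∧ ∃ z₀ : ℕ, 2 ≤ z₀ ∧
    ∀ z : ℕ, z₀ ≤ z → (∀ x : ℕ, (z : ℝ) ^ u ≤ x → (x : ℝ) ≤ (z : ℝ) ^ S → (1 - κ) * (Vf z * x) < Wf z 0 x) → PP z a e := by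
  obtain ⟨A, hA⟩ : ∃ A : ℕ, A = ⌈a⌉₊ := ⟨_, rfl⟩
  have haA : a ≤ A := by rw [hA]; exact Nat.le_ceil a
  have hA0 : (0 : ℝ) ≤ A := Nat.cast_nonneg A
  obtain ⟨κ₁, hκ₁⟩ : ∃ κ₁, κ₁ = min 1 (e / (16 * ((A : ℝ) + 3))) := ⟨_, rfl⟩
  have hκ₁0 : 0 < κ₁ := by rw [hκ₁]; exact lt_min (by norm_num) (by positivity)
  have hκ₁1 : κ₁ ≤ 1 := by rw [hκ₁]; exact min_le_left _ _
  have hκ₁e : 4 * κ₁ * ((A : ℝ) + 3) ≤ e / 4 := by
    have h1 : κ₁ ≤ e / (16 * ((A : ℝ) + 3)) := by rw [hκ₁]; exact min_le_right _ _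
    calc 4 * κ₁ * ((A : ℝ) + 3) ≤ 4 * (e / (16 * ((A : ℝ) + 3))) * ((A : ℝ) + 3) := by
          refine mul_le_mul_of_nonneg_right (by linarith) (by linarith)
      _ = e / 4 := by
        field_simp
        ring
  obtain ⟨s, hs, z₁, hz₁, hfund⟩ := fund hκ₁0 hκ₁1
  obtain ⟨M, hM⟩ : ∃ M : ℕ, M = s + A + 1 := ⟨_, rfl⟩
  have hsr : (1 : ℝ) ≤ s := by exact_mod_cast hs
  have hMr : (M : ℝ) = s + A + 1 := by rw [hM]; push_cast; ring
  have hM0 : 0 < (M : ℝ) := by rw [hMr]; linarith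
  obtain ⟨κ, hκ⟩ : ∃ κ, κ = min (1 / 2) (e / (32 * ((M : ℝ) + 2))) := ⟨_, rfl⟩
  have hκ0 : 0 < κ := by rw [hκ]; exact lt_min (by norm_num) (by positivity)
  have hκ1 : κ ≤ 1 / 2 := by rw [hκ]; exact min_le_left _ _
  have hκe : 8 * κ * ((M : ℝ) + 2) ≤ e / 4 := by
    have h1 : κ ≤ e / (32 * ((M : ℝ) + 2)) := by rw [hκ]; exact min_le_right _ _
    calc 8 * κ * ((M : ℝ) + 2) ≤ 8 * (e / (32 * ((M : ℝ) + 2))) * ((M : ℝ) + 2) := by
          refine mul_le_mul_of_nonneg_right (by linarith) (by linarith)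
      _ = e / 4 := by
        field_simp
        ring
  obtain ⟨z₃, hz₃, hstar⟩ := star (a := a) (S := (M : ℝ) + 1) (η := e / 8) (by linarith) (by positivity)
  obtain ⟨z₅, hz₅⟩ := exists_nat_ge (1 / κ)
  refine ⟨(M : ℝ) + 1, κ, hκ0, by linarith, max z₁ (max z₃ z₅), le_trans hz₁ (le_max_left _ _), fun z hz hno => ?_⟩
  have hzz₁ : z₁ ≤ z := le_trans (le_max_left _ _) hz
  have hzz₃ : z₃ ≤ z := le_trans (le_trans (le_max_left _ _) (le_max_right _ _)) hz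
  have hzz₅ : z₅ ≤ z := le_trans (le_trans (le_max_right _ _) (le_max_right _ _)) hz
  have hzr : (2 : ℝ) ≤ z := by exact_mod_cast le_trans hz₁ hzz₁
  have hz0 : (0 : ℝ) < z := by linarith
  have hz1 : (1 : ℝ) ≤ z := by linarith
  have hκz : 1 / κ ≤ z := hz₅.trans (by exact_mod_cast hzz₅)
  obtain ⟨lz, hlz⟩ : ∃ lz, lz = Real.log (z : ℝ) := ⟨_, rfl⟩
  have hlz0 : 0 < lz := by rw [hlz]; exact Real.log_pos (by linarith)
  obtain ⟨hV, hfz⟩ := hfund z hzz₁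
  rw [← hlz] at hV
  have hVp := Vf_pos z
  -- the real form of the hypothesis
  have hreal : ∀ t : ℝ, (z : ℝ) ^ (a - 1) ≤ t → t ≤ (z : ℝ) ^ ((M : ℝ) + 1) → (1 - 2 * κ) * Vf z * t ≤ Fr z t := by
    intro t ht1 ht2
    have h1 : (z : ℝ) ^ (u + 1) ≤ t := le_trans (Real.rpow_le_rpow_of_exponent_le hz1 (by linarith)) ht1
    rw [Real.rpow_add hz0, Real.rpow_one] at h1
    have h2 : 1 ≤ (z : ℝ) ^ u := Real.one_le_rpow hz1 (by linarith)
    have ht0 : 0 < t := by nlinarith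
    have h3 := Nat.lt_floor_add_one t
    have h4 := Nat.floor_le ht0.le
    have h5 : (z : ℝ) ^ u ≤ ⌊t⌋₊ := by nlinarith
    have h6 := hno ⌊t⌋₊ h5 (h4.trans ht2)
    rw [← Fr_Wf] at h6
    have h7 : (z : ℝ) ≤ t := by nlinarith
    have h8 : 1 ≤ κ * t := by
      have := hκz.trans h7
      rw [div_le_iff₀ hκ0] at this
      linarith
    have h9 : (1 - 2 * κ) * t ≤ (1 - κ) * ⌊t⌋₊ := by nlinarith
    calc (1 - 2 * κ) * Vf z * t = Vf z * ((1 - 2 * κ) * t) := by ring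
      _ ≤ Vf z * ((1 - κ) * ⌊t⌋₊) := mul_le_mul_of_nonneg_left h9 hVp.le
      _ = (1 - κ) * (Vf z * ⌊t⌋₊) := by ring
      _ ≤ Fr z t := h6.le
  intro x hx1 hx2
  have hza : (z : ℝ) ≤ (z : ℝ) ^ (a - 1) := by
    calc (z : ℝ) = (z : ℝ) ^ (1 : ℝ) := (Real.rpow_one _).symm
      _ ≤ (z : ℝ) ^ (a - 1) := Real.rpow_le_rpow_of_exponent_le hz1 (by linarith)
  have hpa : (z : ℝ) ^ a = (z : ℝ) ^ (a - 1) * z := by
    rw [show a = (a - 1) + 1 by ring, Real.rpow_add hz0 (a - 1), Real.rpow_one]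
    ring_nf
  have hpa2 : (z : ℝ) ^ (a + 2) = (z : ℝ) ^ (a + 1) * z := by
    rw [show a + 2 = (a + 1) + 1 by ring, Real.rpow_add hz0 (a + 1), Real.rpow_one]
  have hx0 : 0 < x := lt_of_lt_of_le (by positivity) hx1
  have hlx : Real.log x ≤ (a + 2) * lz := by
    have h1 := Real.log_le_log hx0 hx2
    rw [Real.log_rpow hz0, ← hlz] at h1
    exact h1
  have hlx0 : 0 ≤ Real.log x := by
    refine Real.log_nonneg (le_trans ?_ hx1)
    exact Real.one_le_rpow hz1 (by linarith)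
  have hxS : x ≤ (z : ℝ) ^ ((M : ℝ) + 1) := by
    refine hx2.trans (Real.rpow_le_rpow_of_exponent_le hz1 ?_)
    rw [hMr]
    linarith
  rw [abs_le]
  constructor
  · -- lower bound
    have h1 := hreal x (le_trans (Real.rpow_le_rpow_of_exponent_le hz1 (by linarith)) hx1) hxS
    have h2 : (1 - 2 * κ) * Vf z * Real.log x ≤ Fr z x * Real.log x / x := by
      rw [le_div_iff₀ hx0]
      nlinarith
    have h3 : Vf z * Real.log x ≤ 4 * (a + 2) := by
      calc Vf z * Real.log x ≤ Vf z * ((a + 2) * lz) := mul_le_mul_of_nonneg_left hlx hVp.le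
        _ = (Vf z * lz) * (a + 2) := by ring
        _ ≤ 4 * (a + 2) := mul_le_mul_of_nonneg_right hV (by linarith)
    have h4 : κ * (Vf z * Real.log x) ≤ κ * (4 * (a + 2)) := mul_le_mul_of_nonneg_left h3 hκ0.le
    have h5 : κ * (a + 2) ≤ κ * ((M : ℝ) + 2) := mul_le_mul_of_nonneg_left (by rw [hMr]; linarith) hκ0.le
    nlinarith
  · -- upper bound
    obtain ⟨y, hy⟩ : ∃ y, y = x / z := ⟨_, rfl⟩
    have hxy : x = y * z := by rw [hy]; field_simp
    have hy1 : (z : ℝ) ^ (a - 1) ≤ y := by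
      rw [hy, le_div_iff₀ hz0, ← hpa]
      exact hx1
    have hy2 : y ≤ (z : ℝ) ^ (a + 1) := by
      rw [hy, div_le_iff₀ hz0, ← hpa2]
      exact hx2
    have hy0 : 0 < y := by linarith
    have hy11 : 1 ≤ y := by linarith
    obtain ⟨X, hX⟩ : ∃ X, X = (z : ℝ) ^ (M : ℝ) := ⟨_, rfl⟩
    have hyX : y ≤ X := by
      rw [hX]
      refine hy2.trans (Real.rpow_le_rpow_of_exponent_le hz1 ?_)
      rw [hMr]
      linarith
    have hX0 : 0 < X := by linarith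
    have hXz : X * z = (z : ℝ) ^ ((M : ℝ) + 1) := by rw [hX, Real.rpow_add hz0 (M : ℝ), Real.rpow_one]
    have hXzn : X * z = ((z ^ (M + 1) : ℕ) : ℝ) := by
      rw [hXz, ← Nat.cast_succ, Real.rpow_natCast]
      push_cast
      rfl
    have hlX : Real.log X = M * lz := by rw [hX, Real.log_rpow hz0, hlz]
    have hXz0 : 0 < X * z := by positivity
    -- the integral from y to X
    have h1 := le_II_diff (z := z) (K := (1 - 2 * κ) * Vf z) hy11 hyX (fun t ht1 ht2 => hreal t (hy1.trans ht1)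
      (by rw [← hXz]; nlinarith))
    -- the value at X
    have h2 := hstar z hzz₃ (X * z) (by
      rw [hXz]
      refine Real.rpow_le_rpow_of_exponent_le hz1 ?_
      rw [hMr]
      linarith) (by rw [hXz])
    rw [mul_div_cancel_right₀ X hz0.ne', abs_le] at h2
    have h3 := hfz 0 (z ^ (M + 1)) (Nat.pow_le_pow_right (by omega) (by omega))
    have h4 : Fr z (X * z) = Wf z 0 (z ^ (M + 1)) := by
      rw [Fr_Wf, hXzn, Nat.floor_natCast]
    rw [← h4, ← hXzn, abs_le] at h3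
    have hlXz : Real.log (X * z) = (M + 1) * lz := by
      rw [Real.log_mul hX0.ne' hz0.ne', hlX, ← hlz]
      ring
    have h5 : Fr z (X * z) * Real.log (X * z) / (X * z) ≤ (1 + κ₁ / s) * Vf z * ((M + 1) * lz) := by
      rw [div_le_iff₀ hXz0, hlXz]
      have h6 : Fr z (X * z) ≤ (1 + κ₁ / s) * Vf z * (X * z) := by linarith [h3.2]
      have h7 : 0 ≤ ((M : ℝ) + 1) * lz := by positivity
      calc Fr z (X * z) * (((M : ℝ) + 1) * lz) ≤ (1 + κ₁ / s) * Vf z * (X * z) * (((M : ℝ) + 1) * lz) :=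
            mul_le_mul_of_nonneg_right h6 h7
        _ = (1 + κ₁ / s) * Vf z * ((M + 1) * lz) * (X * z) := by ring
    have h8 : κ₁ / s * (Vf z * ((M + 1) * lz)) ≤ e / 4 := by
      have h9 : Vf z * (((M : ℝ) + 1) * lz) ≤ 4 * (M + 1) := by
        calc Vf z * (((M : ℝ) + 1) * lz) = (Vf z * lz) * (M + 1) := by ring
          _ ≤ 4 * (M + 1) := mul_le_mul_of_nonneg_right hV (by linarith)
      have h10 : ((M : ℝ) + 1) / s ≤ A + 3 := by
        rw [div_le_iff₀ (by linarith), hMr]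
        nlinarith
      calc κ₁ / s * (Vf z * ((M + 1) * lz)) ≤ κ₁ / s * (4 * (M + 1)) := mul_le_mul_of_nonneg_left h9 (by positivity)
        _ = 4 * κ₁ * (((M : ℝ) + 1) / s) := by ring
        _ ≤ 4 * κ₁ * ((A : ℝ) + 3) := mul_le_mul_of_nonneg_left h10 (by linarith)
        _ ≤ e / 4 := hκ₁e
    -- the star identity at x
    have h11 := hstar z hzz₃ x hx1 hxS
    rw [← hy, abs_le] at h11
    have hlxy : Real.log x = Real.log y + lz := by
      rw [hxy, Real.log_mul hy0.ne' hz0.ne', ← hlz]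
    have hly0 : 0 ≤ Real.log y := Real.log_nonneg hy11
    rw [hlX] at h1
    have h12 : κ * (Vf z * (M * lz)) ≤ κ * (4 * M) := by
      refine mul_le_mul_of_nonneg_left ?_ hκ0.le
      calc Vf z * ((M : ℝ) * lz) = (Vf z * lz) * M := by ring
        _ ≤ 4 * M := mul_le_mul_of_nonneg_right hV hM0.le
    have h13 : 0 ≤ κ * (Vf z * Real.log y) := by positivity
    rw [hlxy]
    have e1 : (1 - 2 * κ) * Vf z * (M * lz - Real.log y) =
        Vf z * (M * lz) - Vf z * Real.log y - 2 * (κ * (Vf z * (M * lz))) + 2 * (κ * (Vf z * Real.log y)) := by ring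
    have e2 : (1 + κ₁ / s) * Vf z * ((M + 1) * lz) = Vf z * (M * lz) + Vf z * lz + κ₁ / s * (Vf z * ((M + 1) * lz)) := by ring
    have e3 : Vf z * (Real.log y + lz) = Vf z * Real.log y + Vf z * lz := by ring
    rw [e1] at h1
    rw [e2] at h5
    have e4 : 8 * κ * ((M : ℝ) + 2) = 2 * (κ * (4 * M)) + 16 * κ := by ring
    rw [hlxy] at h11
    linarith [h2.1, h2.2, h11.1, h11.2]

/-- The end of the descent is impossible. -/
theorem finish : ∃ z₀ : ℕ, ∀ z : ℕ, z₀ ≤ z → ¬ PP z (11 / 10) (1 / 100) := by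
  obtain ⟨z₃, hz₃, hstar⟩ := star (a := 11 / 10) (S := 3) (η := 1 / 100) (by norm_num) (by norm_num)
  have hcast : Tendsto (fun z : ℕ => (z : ℝ)) atTop atTop := tendsto_natCast_atTop_atTop
  have e4 : ∀ᶠ z : ℕ in atTop, 100 ≤ (z : ℝ) ^ ((1 : ℝ) / 5) :=
    ((tendsto_rpow_atTop (by norm_num : (0 : ℝ) < 1 / 5)).comp hcast).eventually (eventually_ge_atTop _)
  obtain ⟨z₄, hz₄⟩ := eventually_atTop.1 e4
  refine ⟨max z₃ z₄, fun z hz hP => ?_⟩
  have hzz₃ : z₃ ≤ z := le_trans (le_max_left _ _) hz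
  have hzz₄ : z₄ ≤ z := le_trans (le_max_right _ _) hz
  have hzr : (2 : ℝ) ≤ z := by exact_mod_cast le_trans hz₃ hzz₃
  have hz0 : (0 : ℝ) < z := by linarith
  have hz1 : (1 : ℝ) ≤ z := by linarith
  have h100 := hz₄ z hzz₄
  have key : ∀ v : ℝ, 12 / 10 ≤ v → v ≤ 19 / 10 → |1 - v * (Vf z * Real.log z)| ≤ 3 / 100 := by
    intro v hv1 hv2
    have h1 := hstar z hzz₃ ((z : ℝ) ^ v) (Real.rpow_le_rpow_of_exponent_le hz1 (by linarith))
      (Real.rpow_le_rpow_of_exponent_le hz1 (by linarith))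
    have h2 := hP ((z : ℝ) ^ v) (Real.rpow_le_rpow_of_exponent_le hz1 (by linarith))
      (Real.rpow_le_rpow_of_exponent_le hz1 (by linarith))
    have h3 : (z : ℝ) ^ v / z = (z : ℝ) ^ (v - 1) := by
      rw [Real.rpow_sub hz0, Real.rpow_one]
    rw [h3] at h1
    have h4 : 1 ≤ (z : ℝ) ^ (v - 1) := Real.one_le_rpow hz1 (by linarith)
    have h5 : (z : ℝ) ^ (v - 1) < z := by
      calc (z : ℝ) ^ (v - 1) < (z : ℝ) ^ (1 : ℝ) := Real.rpow_lt_rpow_of_exponent_lt (by linarith) (by linarith)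
        _ = z := Real.rpow_one _
    have h6 := II_small h4 h5
    have h7 : (100 : ℝ) ≤ (z : ℝ) ^ (v - 1) := by
      refine h100.trans (Real.rpow_le_rpow_of_exponent_le hz1 ?_)
      linarith
    have h8 : 1 / (z : ℝ) ^ (v - 1) ≤ 1 / 100 := one_div_le_one_div_of_le (by norm_num) h7
    have h9 : 0 ≤ 1 / (z : ℝ) ^ (v - 1) := by positivity
    have h10 : Real.log ((z : ℝ) ^ v) = v * Real.log z := Real.log_rpow hz0 v
    rw [h6, abs_le] at h1
    have h11 : Vf z * Real.log ((z : ℝ) ^ v) = v * (Vf z * Real.log z) := by rw [h10]; ring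
    rw [h11, abs_le] at h2
    rw [abs_le]
    constructor <;> linarith [h1.1, h1.2, h2.1, h2.2]
  have k1 := abs_le.1 (key (12 / 10) le_rfl (by norm_num))
  have k2 := abs_le.1 (key (19 / 10) (by norm_num) le_rfl)
  linarith [k1.1, k1.2, k2.1, k2.2]

theorem descent (N : ℕ) : ∀ e' : ℝ, 0 < e' → ∃ e : ℝ, 0 < e ∧ ∃ z₀ : ℕ, ∀ z : ℕ, z₀ ≤ z →
    PP z (11 / 10 + N) e → PP z (11 / 10) e' := by
  induction N with
  | zero =>
    intro e' he'
    refine ⟨e', he', 0, fun z _ h => ?_⟩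
    rw [Nat.cast_zero, add_zero] at h
    exact h
  | succ N ih =>
    intro e' he'
    obtain ⟨e₁, he₁, z₁, h₁⟩ := ih e' he'
    obtain ⟨e₂, he₂, z₂, h₂⟩ := step (a := 11 / 10 + N) (e' := e₁) (by linarith [(Nat.cast_nonneg N : (0 : ℝ) ≤ N)]) he₁
    refine ⟨e₂, he₂, max z₁ z₂, fun z hz h => ?_⟩
    refine h₁ z (le_trans (le_max_left _ _) hz) (h₂ z (le_trans (le_max_right _ _) hz) ?_)
    have e1 : (11 / 10 : ℝ) + ((N + 1 : ℕ) : ℝ) = 11 / 10 + N + 1 := by push_cast; ring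
    rw [e1] at h
    exact h

theorem def_holds : DEF := by
  intro u hu
  obtain ⟨N, hN⟩ : ∃ N : ℕ, N = ⌈u⌉₊ + 1 := ⟨_, rfl⟩
  have hNu : u + 2 ≤ 11 / 10 + (N : ℝ) + 1 := by
    rw [hN]
    push_cast
    linarith [Nat.le_ceil u]
  obtain ⟨e, he, z₁, h₁⟩ := descent (N + 1) (1 / 100) (by norm_num)
  obtain ⟨S, κ, hκ0, hκ1, z₂, hz₂, h₂⟩ := start (a := 11 / 10 + ((N + 1 : ℕ) : ℝ)) hu (by push_cast; linarith) he
  obtain ⟨z₃, h₃⟩ := finish
  refine ⟨S, κ, hκ0, hκ1, max z₁ (max z₂ z₃), fun z hz => ?_⟩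
  by_contra hcon
  refine h₃ z (le_trans (le_trans (le_max_right _ _) (le_max_right _ _)) hz) (h₁ z (le_trans (le_max_left _ _) hz)
    (h₂ z (le_trans (le_trans (le_max_left _ _) (le_max_right _ _)) hz) ?_))
  intro x hx1 hx2
  by_contra hx3
  exact hcon ⟨x, hx1, hx2, not_lt.1 hx3⟩

end Pool.Agent.Q120.MG
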