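import Mathlib

/-!
# Irregular windows at every exponent: statements

`Rf z x` counts the `n ≤ x` without prime factors below `z`, `Vf z` is the product of `1 - 1/p` over the primes below `z`.
-/

set_option autoImplicit false

namespace Pool.Agent.Q120.MG

open Finset Filter

/-- The product of `1 - 1/p` over the primes `p < z`. -/
noncomputable def Vf (z : ℕ) : ℝ := ∏ p ∈ (range z).filter Nat.Prime, (1 - 1 / (p : ℝ))

open Classical in
/-- The number of `n ∈ (a, a + y]` without prime factors below `z`. -/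
noncomputable def Wf (z a y : ℕ) : ℕ := ((Ioc a (a + y)).filter (fun n => ∀ p : ℕ, p.Prime → p < z → ¬ p ∣ n)).card

/-- (DEF) For every exponent `u` the initial segment of some length between `z ^ u` and `z ^ S` has too few numbers without
prime factors below `z`, by a constant factor. -/
def DEF : Prop := ∀ u : ℝ, 1 ≤ u → ∃ S κ : ℝ, 0 < κ ∧ κ < 1 ∧ ∃ z₀ : ℕ, ∀ z : ℕ, z₀ ≤ z → ∃ x : ℕ,
  (z : ℝ) ^ u ≤ x ∧ (x : ℝ) ≤ (z : ℝ) ^ S ∧ (Wf z 0 x : ℝ) ≤ (1 - κ) * (Vf z * x)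

/-- (LOW) the linear sieve is positive beyond the exponent two. -/
def LOW : Prop := ∀ s : ℝ, 2 < s → ∃ c : ℝ, 0 < c ∧ ∃ z₀ : ℕ, ∀ z : ℕ, z₀ ≤ z → ∀ a y : ℕ, (z : ℝ) ^ s ≤ y →
  c * (Vf z * y) ≤ Wf z a y

/-- (MAT) windows with few primes, at every exponent `u ≥ 2`: for some `κ < 1`, for all `c, η > 0` and large `x`, at least
`x ^ (1 - η)` numbers `n ≤ x` have at most `κ c (log n) ^ (u - 1)` primes in `(n, n + c (log n) ^ u]`. -/
def MAT : Prop := ∀ u : ℝ, 2 ≤ u → ∃ κ : ℝ, 0 < κ ∧ κ < 1 ∧ ∀ c η : ℝ, 0 < c → 0 < η → ∀ᶠ x : ℕ in atTop,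
  (x : ℝ) ^ (1 - η) ≤ (((Icc 1 x).filter (fun n : ℕ =>
    (((Ioc n (n + ⌊c * (Real.log n) ^ u⌋₊)).filter Nat.Prime).card : ℝ) ≤ κ * (c * (Real.log n) ^ (u - 1)))).card : ℝ)

end Pool.Agent.Q120.MG
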